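import Pool.Agent.Lib.MP_e17db7_gt.Shell

/-!
# A pseudocompact, locally compact, locally connected Moore space which is not metrizable

The proof uses no axiom beyond those of Lean, in particular no hypothesis on cardinals.

The example.  Let `Γ` be the following locally finite connected graph.  Its vertices are the nodes
of the infinite binary tree, called hubs, and the vertices of roads; for each vertex `v`, of
level `N v`, and each hub `c` of height `N v` there is a private road of length `N v` from `c`
to `v`.  Every vertex of a road has the hub where the road begins as its label.  Let `U` be the
product of the realisation of (the clique complex of) `Γ` and the closed unit square.

A strip is given by a branch `ξ` of the binary tree and a sparse sequence of points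
`(v k, x k)`, where `v k` is a vertex and `x k` a point of the square.  Its spine consists of the
branch, the vertices `v k`, and the roads which lead from the branch to the vertices `v k`.  The
function of the strip is `f (u, x) = max (δ u) (L u * dist x (η u))`, where `δ` is the distance to
the spine, `L` tends to infinity slowly and `η` is a slowly varying function with
`η (v k) = x k`.  Since each vertex has private roads which begin at each branch, and since a path
of length `m` which starts at a hub or in the interior of a road cannot change the label beyond
the last `m` digits without going to the end of a road, a strip whose branch is fresh is almost
disjoint from all strips constructed earlier which do not catch its points (`Strip.ad`).  By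
recursion of length continuum (`exists_family`) one gets a family of strips which are pairwise
almost disjoint and such that every sequence which leaves the compact subsets of `U` has a
subsequence on which one of the functions is bounded.

The space is obtained from `U` by adding for each strip `i` a half-line; a neighbourhood of the
point `s` of the half-line contains the points of `U` outside of some compact set at which the
function of the strip is near `s`.  Such sets are connected for large compact sets, because the
spine is connected and square annuli are connected.
-/

/-- There is a Moore space which is locally compact, locally connected and pseudocompact, but not
metrizable. -/
theorem Pool.Agent.Results.MP_e17db7_gt.PseudocompactMoore.result :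
    ∃ (X : Type) (_ : TopologicalSpace X), Pool.Agent.Lib.MP_e17db7_gt.MooreSpace X ∧
      LocallyCompactSpace X ∧ LocallyConnectedSpace X ∧
      Pool.Agent.Lib.MP_e17db7_gt.Pseudocompact X ∧
      ¬ TopologicalSpace.MetrizableSpace X := by
  obtain ⟨I, hI, f, hf⟩ := Pool.Agent.Lib.MP_e17db7_gt.exists_sys
  have h : TopologicalSpace.MetrizableSpace Pool.Agent.Lib.MP_e17db7_gt.UU :=
    TopologicalSpace.metrizableSpace_of_t3_secondCountable _
  exact ⟨_, _, Pool.Agent.Lib.MP_e17db7_gt.ext_example hf⟩
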